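import Mathlib

namespace Pool.Agent.Results.MP_c5669f_al.Yes

open MvPolynomial Matrix Module Submodule TrivSqZeroExt

section
variable {k K : Type*} [Field k] [Field K] [Algebra k K]

def dual {A : Type*} [CommRing A] [Algebra k A] [Algebra A K] (d : Derivation k A K) :
    A →+* DualNumber K where
  toFun x := inl (algebraMap A K x) + inr (d x)
  map_one' := by simp
  map_zero' := by simp
  map_add' x y := by ext <;> simp
  map_mul' x y := by
    ext
    · simp
    · simp; simp only [Algebra.smul_def, mul_comm]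

lemma sap {n : Type*} (s : Finset n) (v : n → Derivation k K K) (x : K) :
    (∑ i ∈ s, v i) x = ∑ i ∈ s, v i x := by
  classical
  induction s using Finset.induction_on with
  | empty => simp
  | insert a s h ih => simp [h, ih]

lemma ddet {n : Type*} [Fintype n] [DecidableEq n] (d : Derivation k K K) (U A : Matrix n n K)
    (h : U.map d = A * U) : d U.det = A.trace * U.det := by
  have e : U.map (dual d) = (1 + (DualNumber.eps : DualNumber K) • A.map (inlHom K K)) *
      U.map (inlHom K K) := by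
    rw [add_mul, one_mul, smul_mul_assoc, ← Matrix.map_mul, ← h]
    ext i j <;> simp [dual]
  have := congrArg snd ((dual d).map_det U)
  rw [RingHom.mapMatrix_apply, e, det_mul, det_one_add_smul, sq, DualNumber.eps_mul_eps, mul_zero,
    add_zero, ← RingHom.mapMatrix_apply, ← RingHom.mapMatrix_apply, ← RingHom.map_det,
    RingHom.mapMatrix_apply, ← AddMonoidHom.map_trace] at this
  simpa [dual, mul_comm] using this

lemma tr0 {n : Type*} [Fintype n] [DecidableEq n] {M E : Matrix n n K} (hM : IsUnit M)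
    (a : ∀ x, x ⬝ᵥ M *ᵥ x = 0) (b : Mᵀ = -M) (h : E * M + M * Eᵀ = 0) : E.trace = 0 := by
  rw [isUnit_iff_isUnit_det] at hM
  have s : (E * M)ᵀ = E * M := by
    rw [transpose_mul, b, neg_mul, eq_comm, eq_neg_iff_add_eq_zero, h]
  have i : M⁻¹ᵀ = -M⁻¹ := by
    rw [transpose_nonsing_inv, b]
    exact inv_eq_left_inv (by rw [neg_mul_neg, nonsing_inv_mul _ hM])
  have z : ∀ j, M⁻¹ j j = 0 := fun j => by
    have := a (M⁻¹ *ᵥ Pi.single j 1)
    rw [mulVec_mulVec, mul_nonsing_inv _ hM, one_mulVec, dotProduct_single] at this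
    simpa using this
  rw [← mul_nonsing_inv_cancel_right M E hM, Matrix.trace]
  simp only [diag_apply, mul_apply (M := E * M)]
  rw [← Fintype.sum_prod_type']
  refine Finset.sum_involution (fun x _ => x.swap) (fun x _ => ?_) (fun x _ h e => h ?_)
    (by simp) (by simp)
  · have h1 := congrFun (congrFun s x.1) x.2
    have h2 := congrFun (congrFun i x.1) x.2
    simp only [transpose_apply, Matrix.neg_apply] at h1 h2
    simp [h1, h2]
  · rw [show x.2 = x.1 from congrArg Prod.fst e, z, mul_zero]

lemma sympl {V : Type*} [AddCommGroup V] [Module K V] [FiniteDimensional K V]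
    (B : V →ₗ[K] V →ₗ[K] K) (a : ∀ x, B x x = 0) (U : Submodule K V) :
    ∃ s ⊆ (U : Set V), U ≤ span K s ∧ ∀ x ∈ s, ∀ y ∈ s, B x y = 0 ∨ B x y = 1 ∨ B x y = -1 := by
  have sk : ∀ x y, B x y = -B y x := fun x y => (LinearMap.IsAlt.neg a y x).symm
  induction U using WellFoundedLT.induction with
  | ind U ih =>
  by_cases c : ∀ x ∈ U, ∀ y ∈ U, B x y = 0
  · exact ⟨U, le_rfl, subset_span, fun x h y h' => Or.inl (c x h y h')⟩
  push Not at c
  obtain ⟨e, he, g, hg, c⟩ := c
  obtain ⟨f, hf, c⟩ : ∃ f ∈ U, B e f = 1 := ⟨(B e g)⁻¹ • g, U.smul_mem _ hg, by simp [c]⟩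
  obtain ⟨s, s1, s2, s3⟩ := ih (U ⊓ (LinearMap.ker (B e) ⊓ LinearMap.ker (B f)))
    (lt_of_le_of_ne inf_le_left fun k => by simpa [c] using (k.ge hf).2.1)
  refine ⟨insert e (insert f s), Set.insert_subset he (Set.insert_subset hf fun x h => (s1 h).1),
    fun u hu => ?_, ?_⟩
  · have m : ∀ x ∈ insert e (insert f s), x ∈ span K (insert e (insert f s)) := subset_span
    have := span_mono ((Set.subset_insert f s).trans (Set.subset_insert e _))
      (s2 (x := u + B f u • e - B e u • f) ⟨sub_mem (add_mem hu (U.smul_mem _ he)) (U.smul_mem _ hf),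
        by simp [a, c], by simp [a, sk f e, c]⟩)
    simpa using sub_mem (add_mem this (smul_mem _ (B e u) (m f (by simp))))
      (smul_mem _ (B f u) (m e (by simp)))
  · have p : ∀ x ∈ s, B e x = 0 ∧ B f x = 0 := fun x h => (s1 h).2
    rintro x (rfl | rfl | hx) y (rfl | rfl | hy)
    exacts [Or.inl (a _), by simp [c], Or.inl (p y hy).1, by simp [sk x y, c], Or.inl (a _),
      Or.inl (p y hy).2, by simp [sk x y, (p x hx).1], by simp [sk x y, (p x hx).2], s3 x hx y hy]

lemma dmul {n : Type*} [Fintype n] (d : Derivation k K K) (A B : Matrix n n K) :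
    (A * B).map d = A.map d * B + A * B.map d := by
  ext i j
  simp [mul_apply, ← Finset.sum_add_distrib, mul_comm, add_comm]

lemma pf {n : ℕ} {M : Matrix (Fin n) (Fin n) K} (hM : IsUnit M) (a : ∀ x, x ⬝ᵥ M *ᵥ x = 0)
    (b : Mᵀ = -M) : ∃ s ≠ 0, ∀ (d : Derivation k K K) c, M.map d = c * M + M * cᵀ →
      d s = -c.trace * s := by
  obtain ⟨s, -, s2, s3⟩ := sympl (toLinearMap₂' K M) (fun x => by rw [toLinearMap₂'_apply', a]) ⊤
  obtain ⟨q, q1, q2, q3⟩ := exists_fun_fin_finrank_span_eq K s
  have e : finrank K (span K s) = n := by rw [top_unique s2]; simp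
  clear q2
  generalize finrank K (span K s) = m at *
  subst e
  have hQ : IsUnit (of q).det := (isUnit_iff_isUnit_det _).1 (linearIndependent_rows_iff_isUnit.1 q3)
  refine ⟨(of q).det, hQ.ne_zero, fun d c h => ?_⟩
  have z : (of q * M * (of q)ᵀ).map d = 0 := by
    ext i j
    have : (of q * M * (of q)ᵀ) i j = toLinearMap₂' K M (q i) (q j) := by
      rw [toLinearMap₂'_apply', Matrix.mul_assoc]; rfl
    rw [map_apply, this]
    rcases s3 _ (q1 i) _ (q1 j) with e | e | e <;> simp [e]
  set Q := of q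
  have hA : Q.map d = Q * (Q⁻¹ * Q.map d) := by rw [mul_nonsing_inv_cancel_left _ _ hQ]
  have := tr0 (E := Q⁻¹ * Q.map d + c) hM a b (by
    rw [dmul, dmul, h, transpose_map] at z
    generalize Q⁻¹ * Q.map d = A at *
    rw [hA, transpose_mul] at z
    refine ((isUnit_iff_isUnit_det _).2 hQ).mul_left_cancel (((isUnit_iff_isUnit_det _).2
      (isUnit_det_transpose _ hQ)).mul_right_cancel ?_)
    rw [mul_zero, zero_mul, ← z, transpose_add]
    noncomm_ring)
  rw [ddet d Q (Q.map d * Q⁻¹) (by rw [nonsing_inv_mul_cancel_right _ _ hQ]), trace_mul_comm,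
    eq_neg_of_add_eq_zero_left ((trace_add _ _).symm.trans this)]

lemma adp (p : ℕ) [Fact p.Prime] [CharP k p] (v w : End k K) :
    ((LinearMap.mulLeft k v - LinearMap.mulRight k v) ^ p) w = v ^ p * w - w * v ^ p := by
  have : CharP (End k (End k K)) p := charP_of_injective_algebraMap (algebraMap k _).injective p
  have h := sub_pow_char_of_commute (R := End k (End k K)) p (LinearMap.commute_mulLeft_right v v)
  refine (LinearMap.congr_fun h w).trans ?_
  simp

lemma flag (p : ℕ) [Fact p.Prime] [CharP k p] [FiniteDimensional K (Derivation k K K)]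
    (W : Submodule K (Derivation k K K)) (hW : ∀ v ∈ W, ∀ w ∈ W, ⁅v, w⁆ ∈ W) (h : W ≠ ⊤) :
    ∃ w ∉ W, ∀ v ∈ W, ⁅v, w⁆ ∈ W := by
  have it : ∀ (v w : Derivation k K K) t, ((⁅v, ·⁆)^[t] w : Derivation k K K).toLinearMap =
      ((LinearMap.mulLeft k v.toLinearMap - LinearMap.mulRight k v.toLinearMap) ^ t) w.toLinearMap :=
    fun v w t => by
      induction t with
      | zero => rfl
      | succ t ih => rw [Function.iterate_succ_apply', pow_succ', End.mul_apply, ← ih]; rfl
  have pw : ∀ v : Derivation k K K, ∃ v' : Derivation k K K, v'.toLinearMap = v.toLinearMap ^ p :=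
    fun v => ⟨.mk' _ fun a b => by
      have : ∀ t, ((LinearMap.mulLeft k v.toLinearMap - LinearMap.mulRight k v.toLinearMap) ^ t)
          (LinearMap.mulLeft k a) = LinearMap.mulLeft k ((v.toLinearMap ^ t) a) := fun t => by
        induction t with
        | zero => rfl
        | succ t ih => rw [pow_succ', End.mul_apply, ih, pow_succ']; ext; simp [mul_comm]
      have := LinearMap.congr_fun ((adp p _ _).symm.trans (this p)) b
      simp only [LinearMap.sub_apply, End.mul_apply, LinearMap.mulLeft_apply] at this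
      simp only [smul_eq_mul]
      linear_combination this, rfl⟩
  choose pw hp using pw
  have ad : ∀ v w : Derivation k K K, (⁅v, ·⁆)^[p] w = ⁅pw v, w⁆ := fun v w =>
    Derivation.ext fun x => by
      have := it v w p
      rw [adp, ← hp] at this
      exact LinearMap.congr_fun this x
  have st : ∀ v ∈ W, ∀ t, ∀ w ∈ W, (⁅v, ·⁆)^[t] w ∈ W := fun v hv t w hw =>
    Function.Iterate.rec (· ∈ W) hw (fun w => hW v hv w) t
  by_cases c : ∀ v ∈ W, pw v ∈ W
  swap
  · push Not at c
    obtain ⟨v, c1, c2⟩ := c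
    exact ⟨_, c2, fun u hu => by rw [← lie_skew, ← ad]; exact neg_mem (st v c1 p u hu)⟩
  let ev : K → Dual K W := fun y =>
    { toFun := fun v => v.1 y, map_add' := by simp, map_smul' := by simp }
  obtain ⟨β, b1, b2, b3⟩ := exists_fun_fin_finrank_span_eq K (Set.range ev)
  replace b2 := b2.trans (span_eq_top_of_ne_zero (s := Set.range ev) fun z hz => by
    by_contra! k
    exact hz (Subtype.ext (Derivation.ext fun y => k _ ⟨y, rfl⟩)))
  choose y hy using b1
  let b := Basis.mk b3 b2.ge
  let v := fun i => (evalEquiv K W).symm (b.coord i)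
  have v1 : ∀ i j, (v i).1 (y j) = if i = j then 1 else 0 := fun i j => by
    change ev (y j) (v i) = _
    rw [hy, apply_evalEquiv_symm_apply, ← Basis.mk_apply b3 b2.ge, Basis.coord_apply,
      Basis.repr_self, Finsupp.single_apply]
    simp [eq_comm]
  have kl : ∀ u ∈ W, (∀ j, u (y j) = 0) → u = 0 := fun u hu k =>
    congrArg Subtype.val ((forall_dual_apply_eq_zero_iff K (⟨u, hu⟩ : W)).1 fun φ => by
      have : Dual.eval K W ⟨u, hu⟩ = 0 := b.ext fun j => by
        rw [Basis.mk_apply, ← hy]; exact k j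
      exact LinearMap.congr_fun this φ)
  have cm : ∀ i j, ⁅(v i).1, (v j).1⁆ = 0 := fun i j => kl _ (hW _ (v i).2 _ (v j).2) fun l => by
    rw [Derivation.commutator_apply, v1, v1]
    split_ifs <;> simp
  have nl : ∀ i, pw (v i).1 = 0 := fun i => kl _ (c _ (v i).2) fun l => by
    change (pw (v i).1).toLinearMap _ = _
    obtain ⟨q, rfl⟩ : ∃ q, p = q + 2 := ⟨p - 2, by have := (Fact.out : p.Prime).two_le; omega⟩
    rw [hp, pow_succ, pow_succ, End.mul_apply, End.mul_apply, Derivation.coeFn_coe, v1]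
    split_ifs <;> simp
  suffices ∀ S : Finset _, ∃ w ∉ W, ∀ i ∈ S, ⁅(v i).1, w⁆ ∈ W by
    obtain ⟨w, w1, w2⟩ := this Finset.univ
    refine ⟨w, w1, fun u hu => ?_⟩
    have e : u = ∑ i, u (y i) • (v i).1 := sub_eq_zero.1 (kl _ (sub_mem hu (sum_mem fun i _ =>
      smul_mem _ _ (v i).2)) fun j => by simp [v1, sap])
    rw [e, sum_lie]
    refine sum_mem fun i _ => ?_
    rw [show ⁅u (y i) • (v i).1, w⁆ = u (y i) • ⁅(v i).1, w⁆ - w (u (y i)) • (v i).1 by
      ext; simp [Derivation.commutator_apply]; ring]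
    exact sub_mem (smul_mem _ _ (w2 i (by simp))) (smul_mem _ _ (v i).2)
  intro S
  induction S using Finset.induction_on with
  | empty => simpa using SetLike.exists_not_mem_of_ne_top W h
  | insert a S _ ih =>
    obtain ⟨w, w1, w2⟩ := ih
    obtain ⟨t, t1, t2⟩ := Nat.exists_not_and_succ_of_not_zero_of_exists
      (p := fun t => (⁅(v a).1, ·⁆)^[t] w ∈ W) w1 ⟨p, by rw [ad, nl, zero_lie]; exact zero_mem _⟩
    refine ⟨_, t1, fun i hi => ?_⟩
    rcases Finset.mem_insert.1 hi with rfl | hi
    · rwa [Function.iterate_succ_apply'] at t2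
    · rw [(Function.Commute.iterate_right (f := (⁅(v i).1, ·⁆)) (g := (⁅(v a).1, ·⁆))
        (fun x => by simp only; rw [leibniz_lie, cm, zero_lie, zero_add]) t).eq w]
      exact st _ (v a).2 t _ (w2 i hi)

lemma vol (p : ℕ) [Fact p.Prime] [CharP k p] [FiniteDimensional K (Derivation k K K)] {P : Type*}
    (ι : P → K) (br : P → P → P) (H : P → Derivation k K K) (h1 : ∀ a b, H a (ι b) = -H b (ι a))
    (h0 : ∀ a, H a (ι a) = 0) (h2 : ∀ a b, ⁅H a, H b⁆ = H (br a b))
    (h3 : ∀ a b, ι (br a b) = H a (ι b)) (h4 : ∀ v : Derivation k K K, (∀ a, v (ι a) = 0) → v = 0) :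
    ∃ (m : ℕ) (u : Fin m → Derivation k K K), LinearIndependent K u ∧ span K (Set.range u) = ⊤ ∧
      ∃ s ≠ 0, ∀ g, ∃ c : Matrix (Fin m) (Fin m) K, (∀ i, ⁅H g, u i⁆ = ∑ j, c i j • u j) ∧
        H g s = -c.trace * s := by
  let I := fun W : Submodule K (Derivation k K K) => (∀ v ∈ W, ∀ w ∈ W, ⁅v, w⁆ ∈ W) ∧
    (∀ g, H g ∈ W) ∧ ∃ (m : ℕ) (u : Fin m → Derivation k K K), LinearIndependent K u ∧
      span K (Set.range u) = W ∧ ∃ s ≠ 0, ∀ g, ∃ c : Matrix (Fin m) (Fin m) K,
        (∀ i, ⁅H g, u i⁆ = ∑ j, c i j • u j) ∧ H g s = -c.trace * s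
  have sm : ∀ (a : K) (v w : Derivation k K K), ⁅v, a • w⁆ = a • ⁅v, w⁆ + v a • w := fun a v w => by
    ext; simp [Derivation.commutator_apply]
  have cl : ∀ s : Set (Derivation k K K), (∀ v ∈ s, ∀ w ∈ s, ⁅v, w⁆ ∈ span K s) →
      ∀ v ∈ span K s, ∀ w ∈ span K s, ⁅v, w⁆ ∈ span K s := by
    intro s h
    have q : ∀ v ∈ span K s, (∀ w ∈ s, ⁅v, w⁆ ∈ span K s) → ∀ w ∈ span K s, ⁅v, w⁆ ∈ span K s := by
      intro v _ k w hw
      induction hw using span_induction with
      | mem w hw => exact k w hw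
      | zero => simp
      | add a b _ _ i j => rw [lie_add]; exact add_mem i j
      | smul a b i j => rw [sm]; exact add_mem (smul_mem _ _ j) (smul_mem _ _ i)
    exact fun v hv => q v hv fun w hw => by
      rw [← lie_skew]; exact neg_mem (q w (subset_span hw) (h w hw) v hv)
  have base : I (span K (Set.range H)) := by
    refine ⟨cl _ ?_, fun g => subset_span ⟨g, rfl⟩, ?_⟩
    · rintro _ ⟨a, rfl⟩ _ ⟨b, rfl⟩
      exact subset_span ⟨_, (h2 a b).symm⟩
    obtain ⟨u, u1, u2, u3⟩ := exists_fun_fin_finrank_span_eq K (Set.range H)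
    choose a ha using u1
    have ex : ∀ g, ∃ c : _ → K, ∑ j, c j • u j = H g := fun g =>
      (mem_span_range_iff_exists_fun K).1 (u2.ge (subset_span ⟨g, rfl⟩))
    choose c hc using ex
    have c1 : ∀ g y, H g y = ∑ j, c g j * u j y := fun g y => by simp [← hc, sap]
    have sk : ∀ i j, u i (ι (a j)) = -u j (ι (a i)) := fun i j => by rw [← ha, ← ha, h1]
    have sk' : (of fun i j => u i (ι (a j)))ᵀ = -(of fun i j => u i (ι (a j))) := by
      ext i j; exact sk j i
    obtain ⟨s, s1, s2⟩ := pf (k := k) (M := of fun i j => u i (ι (a j)))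
      (linearIndependent_rows_iff_isUnit.1 (Fintype.linearIndependent_iff.2 fun l hl =>
        Fintype.linearIndependent_iff.1 u3 l (h4 _ fun g => by
          have z : ∀ j, ∑ i, l i * u i (ι (a j)) = 0 := fun j => by simpa using congrFun hl j
          calc _ = ∑ i, l i * ∑ j, c g j * u i (ι (a j)) := by
                simp only [sap, Derivation.smul_apply, smul_eq_mul]
                refine Finset.sum_congr rfl fun i _ => ?_
                rw [← ha, h1, c1, ← Finset.sum_neg_distrib]
                simp only [ha, sk i, mul_neg]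
            _ = 0 := by
                simp only [Finset.mul_sum]
                rw [Finset.sum_comm]
                simp only [mul_left_comm (l _), ← Finset.mul_sum, z, mul_zero,
                  Finset.sum_const_zero])))
      (fun x => by
        simp only [dotProduct, mulVec, Finset.mul_sum, of_apply]
        rw [← Fintype.sum_prod_type']
        refine Finset.sum_involution (fun x _ => x.swap) (fun y _ => ?_) (fun y _ h e => h ?_)
          (by simp) (by simp)
        · simp only [Prod.fst_swap, Prod.snd_swap, sk y.2 y.1]; ring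
        · rw [show y.2 = y.1 from congrArg Prod.fst e, ← ha, h0]; ring) sk'
    refine ⟨_, u, u3, u2, s, s1, fun g => ⟨of fun i => c (br g (a i)), fun i => ?_, s2 _ _ ?_⟩⟩
    · rw [← ha, h2, ← hc]; simp only [ha, of_apply]
    · ext i j
      have := Derivation.commutator_apply (D1 := H g) (D2 := H (a i)) (a := ι (a j))
      rw [h2, ← h3 g, h1 (a i) (br g (a j)), c1, c1 (br g (a j)), ha, eq_sub_iff_add_eq] at this
      simp only [map_apply, of_apply, Matrix.add_apply, mul_apply, transpose_apply, ← this]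
      simp only [sk i, neg_mul, Finset.sum_neg_distrib, mul_comm (u _ _), mul_neg]
  obtain ⟨W, ⟨w1, w2, m, u, u1, u2, s, s1, s2⟩, mx⟩ := exists_maximal_of_wellFoundedGT I ⟨_, base⟩
  refine ⟨m, u, u1, u2.trans ?_, s, s1, s2⟩
  by_contra ne
  obtain ⟨w, a1, a2⟩ := flag p W w1 ne
  have le : W ≤ span K (insert w W) := fun x hx => subset_span (Or.inr hx)
  refine a1 (mx (y := span K (insert w W)) ⟨cl _ ?_, fun g => le (w2 g), m + 1, Fin.cons w u,
    linearIndependent_finCons.2 ⟨u1, u2 ▸ a1⟩, by rw [Fin.range_cons, span_insert, span_insert, u2,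
      span_eq], s, s1, fun g => ?_⟩ le (subset_span (Or.inl rfl)))
  · rintro x (rfl | hx) y (rfl | hy)
    exacts [by simp, by rw [← lie_skew]; exact neg_mem (le (a2 y hy)), le (a2 x hx),
      le (w1 x hx y hy)]
  · obtain ⟨c, c1, c2⟩ := s2 g
    obtain ⟨e, he⟩ := (mem_span_range_iff_exists_fun K).1 (u2.ge (a2 _ (w2 g)))
    refine ⟨of (Fin.cons (Fin.cons 0 e) fun i => Fin.cons 0 (c i)), Fin.forall_fin_succ.2
      ⟨by simp [Fin.sum_univ_succ, he], fun i => by simp [Fin.sum_univ_succ, c1]⟩,
      by simp [c2, Matrix.trace, Fin.sum_univ_succ]⟩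

end

theorem result (k : Type) [Field k] (p : ℕ) (hp : 0 < p) [CharP k p] (n : ℕ)
    (br : MvPolynomial (Fin n) k →ₗ[k] MvPolynomial (Fin n) k →ₗ[k] MvPolynomial (Fin n) k)
    (alt : ∀ a, br a a = 0)
    (jac : ∀ a b c, br a (br b c) + br b (br c a) + br c (br a b) = 0)
    (leib : ∀ a b c, br a (b * c) = br a b * c + b * br a c) :
    (fun f => ∑ j, pderiv j (br (X j) f)) ∈ AddSubgroup.closure
      {δ : MvPolynomial (Fin n) k → MvPolynomial (Fin n) k |
        ∃ f, f ≠ 0 ∧ ∀ a, br a f = f * δ a} := by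
  have : NeZero p := ⟨hp.ne'⟩
  have : Fact p.Prime := CharP.char_is_prime_of_pos k p
  let P := MvPolynomial (Fin n) k
  let K := FractionRing P
  let ι := algebraMap P K
  have inj : Function.Injective ι := IsFractionRing.injective P K
  have ex : ∀ d : Derivation k P P, ∃ D : Derivation k K K, ∀ a, D (ι a) = ι (d a) := fun d => by
    let φ := dual (K := K) ((Algebra.linearMap P K).compDer d)
    let ψ : K →+* DualNumber K := IsLocalization.lift (M := nonZeroDivisors P) (g := φ) fun y =>
      isUnit_iff_isUnit_fst.2 (by simpa [φ, dual] using IsLocalization.map_units K y)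
    have p1 : ∀ a, ψ (ι a) = φ a := IsLocalization.lift_eq _
    have p2 : ∀ x, (ψ x).fst = x := fun x => RingHom.congr_fun (IsLocalization.ringHom_ext
      (nonZeroDivisors P) (j := (fstHom K K K).toRingHom.comp ψ) (k := RingHom.id K)
      (RingHom.ext fun a => by simp [ι, ← p1, show ψ (algebraMap P K a) = _ from p1 a, φ, dual])) x
    have p3 : ∀ a, (ψ (ι a)).snd = ι (d a) := fun a => by simp [p1, φ, dual, ι]
    have p4 : ∀ x y, (ψ (x * y)).snd = x * (ψ y).snd + y * (ψ x).snd := fun x y => by
      simp [p2, mul_comm]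
    refine ⟨.mk' ⟨⟨fun x => (ψ x).snd, by simp⟩, fun c x => ?_⟩ p4, p3⟩
    simp only [Algebra.smul_def, RingHom.id_apply, p4, IsScalarTower.algebraMap_apply k P K]
    rw [p3, d.map_algebraMap, map_zero, mul_zero, add_zero]
  choose E hE using ex
  have k1 : ∀ v : Derivation k K K, (∀ a, v (ι a) = 0) → v = 0 := fun v h => Derivation.ext fun x => by
    obtain ⟨a, b, -, rfl⟩ := IsFractionRing.div_surjective P x
    rw [Derivation.leibniz_div, h, h]; simp
  have k2 : ∀ v : Derivation k K K, (∀ j, v (ι (X j)) = 0) → v = 0 := fun v h => k1 v fun a =>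
    Derivation.congr_fun (derivation_ext (D₁ := v.compAlgebraMap P) (D₂ := 0) h) a
  let e : Derivation k K K →ₗ[K] (Fin n → K) :=
    { toFun := fun v j => v (ι (X j)), map_add' := fun _ _ => rfl, map_smul' := fun _ _ => rfl }
  have e1 : Function.Injective e := (injective_iff_map_eq_zero e).2 fun v h => k2 v (congrFun h)
  have e3 : ∀ c : Fin n → K, e (∑ l, c l • E (pderiv l)) = c := fun c => by
    ext j
    have : ∀ l, ι (pderiv l (X j)) = if j = l then 1 else 0 := fun l => by
      rw [pderiv_X, Pi.single_apply, apply_ite ι, map_one, map_zero]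
    simp [e, hE, this, sap]
  have := FiniteDimensional.of_injective e e1
  have sk : ∀ a b, br a b = -br b a := fun a b => (LinearMap.IsAlt.neg alt b a).symm
  let H := fun g => E (.mk' (br g) fun a b => by simp [leib, mul_comm, add_comm])
  have hH : ∀ g a, H g (ι a) = ι (br g a) := fun g => hE _
  obtain ⟨m, u, u1, u2, s, s1, s2⟩ := vol p ι (fun a b => br a b) H
    (fun a b => by rw [hH, hH, sk, map_neg]) (fun a => by rw [hH, alt, map_zero])
    (fun a b => sub_eq_zero.1 (k1 _ fun c => by
      have := congrArg ι (jac a b c)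
      rw [sk c a, sk c] at this
      simp only [Derivation.sub_apply, Derivation.commutator_apply, hH, map_add, map_neg,
        map_zero] at this ⊢
      linear_combination this)) (fun a b => (hH a b).symm) k1
  obtain rfl : m = n := by
    have := (LinearEquiv.ofBijective e ⟨e1, fun c => ⟨_, e3 c⟩⟩).finrank_eq
    rw [finrank_eq_card_basis (Basis.mk u1 u2.ge)] at this
    simpa using this
  have hU : IsUnit (of fun i => e (u i)).det := (isUnit_iff_isUnit_det _).1
    (linearIndependent_rows_iff_isUnit.1 (u1.map' e (LinearMap.ker_eq_bot.2 e1)))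
  set U := of fun i => e (u i)
  have key : ∀ g, H g (U.det * s) = -ι (∑ j, pderiv j (br (X j) g)) * (U.det * s) := fun g => by
    obtain ⟨c, c1, c2⟩ := s2 g
    let J : Matrix (Fin m) (Fin m) K := of fun l j => ι (pderiv l (br g (X j)))
    have := ddet (H g) U (c + U * J * U⁻¹) (by
      rw [add_mul, nonsing_inv_mul_cancel_right _ _ hU]
      ext i j
      have h := Derivation.congr_fun (c1 i) (ι (X j))
      have h' := Derivation.congr_fun (e1 (e3 (e (u i)))) (ι (br g (X j)))
      rw [Derivation.commutator_apply, hH, ← h', sub_eq_iff_eq_add] at h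
      simpa [hE, mul_apply, U, J, e, sap] using h)
    rw [trace_add, trace_mul_comm, nonsing_inv_mul_cancel_left _ _ hU] at this
    rw [Derivation.leibniz, this, c2]
    simp only [smul_eq_mul, Matrix.trace, diag_apply, J, of_apply, sk g, map_neg, map_sum,
      Finset.sum_neg_distrib]
    ring
  obtain ⟨a, ⟨b, hb⟩, cp, ab⟩ := IsFractionRing.exists_reduced_fraction P (U.det * s)
  have b0 : b ≠ 0 := nonZeroDivisors.ne_zero hb
  have ab' : ι a = U.det * s * ι b := by rw [← ab, IsLocalization.mk'_spec]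
  have a0 : a ≠ 0 := by
    rintro rfl
    exact mul_ne_zero (mul_ne_zero hU.ne_zero s1) ((map_ne_zero_iff ι inj).2 b0)
      (ab'.symm.trans (map_zero ι))
  have id : ∀ g, br g a * b = a * br g b - (∑ j, pderiv j (br (X j) g)) * a * b := fun g => inj (by
    have := congrArg (H g) ab'
    rw [Derivation.leibniz, key, hH, hH] at this
    simp only [map_mul, map_sub, this, ab', smul_eq_mul]
    ring)
  have da : ∀ g, ∃ c, br g a = a * c := fun g => cp.dvd_of_dvd_mul_right
    (id g ▸ dvd_sub (dvd_mul_right _ _) ((dvd_mul_left _ _).mul_right _))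
  choose δ hδ using da
  have := sub_mem (AddSubgroup.subset_closure (k := {δ : P → P | ∃ f, f ≠ 0 ∧ ∀ a, br a f = f * δ a})
    (a := δ + fun f => ∑ j, pderiv j (br (X j) f)) ⟨b, b0, fun g => mul_left_cancel₀ a0 (by
      have := id g
      rw [hδ] at this
      simp only [Pi.add_apply]
      linear_combination -this)⟩) (AddSubgroup.subset_closure ⟨a, a0, hδ⟩)
  rwa [add_sub_cancel_left] at this

end Pool.Agent.Results.MP_c5669f_al.Yes
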